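import Mathlib

open MeasureTheory Set Real
open scoped ENNReal

namespace Pool.Agent.H.MP_42a974_an

abbrev V (n : ℕ) := EuclideanSpace ℝ (Fin n)

noncomputable def κ (d : ℝ) : ℝ≥0∞ := if d = 0 then ⊤ else ENNReal.ofReal (log (3 / d))

lemma κ_meas : Measurable κ := by
  unfold κ
  exact Measurable.ite (measurableSet_singleton 0) measurable_const (by fun_prop)

noncomputable def X (r s D : ℝ) : ℝ := (r ^ 2 + s ^ 2 + D + √((r ^ 2 + s ^ 2 + D) ^ 2 - 4 * r ^ 2 * s ^ 2)) / 2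

lemma disc {r s D : ℝ} (hD : 0 ≤ D) : (r ^ 2 - s ^ 2) ^ 2 ≤ (r ^ 2 + s ^ 2 + D) ^ 2 - 4 * r ^ 2 * s ^ 2 := by
  nlinarith [sq_nonneg r, sq_nonneg s]
lemma X_eq {r s D : ℝ} (hD : 0 ≤ D) : X r s D ^ 2 - (r ^ 2 + s ^ 2 + D) * X r s D + r ^ 2 * s ^ 2 = 0 := by
  have := sq_sqrt ((sq_nonneg _).trans (disc (r := r) (s := s) hD))
  unfold X; nlinarith
lemma X_ge {r s D : ℝ} (hD : 0 ≤ D) : r ^ 2 ≤ X r s D ∧ s ^ 2 ≤ X r s D := by
  have := abs_le.1 (abs_le_sqrt (disc (r := r) (s := s) hD))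
  unfold X; constructor <;> linarith [this.1, this.2]
lemma le_X {r s D x : ℝ} (h : x ^ 2 - (r ^ 2 + s ^ 2 + D) * x + r ^ 2 * s ^ 2 ≤ 0) : x ≤ X r s D := by
  have := le_sqrt_of_sq_le (show (2 * x - (r ^ 2 + s ^ 2 + D)) ^ 2 ≤ (r ^ 2 + s ^ 2 + D) ^ 2 - 4 * r ^ 2 * s ^ 2 by nlinarith)
  unfold X; linarith
lemma X_mono {r R s D : ℝ} (hD : 0 ≤ D) (h : r ^ 2 ≤ R ^ 2) : X r s D ≤ X R s D := by
  refine le_X ?_
  have h1 := X_eq (r := r) (s := s) hD
  have h2 := (X_ge (r := r) (s := s) hD).2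
  nlinarith [mul_nonneg (sub_nonneg.2 h) (sub_nonneg.2 h2)]

noncomputable def ρ : Measure ℝ := (ENNReal.ofReal (2 * π))⁻¹ • volume.restrict (Ioc 0 (2 * π))
instance : IsProbabilityMeasure ρ := ⟨by
  simp only [ρ, Measure.smul_apply, Measure.restrict_apply_univ, volume_Ioc, sub_zero, smul_eq_mul]
  exact ENNReal.inv_mul_cancel (by simp [pi_pos]) ENNReal.ofReal_ne_top⟩

lemma ring_int (ζ : ℂ) (s D : ℝ) (hs : 0 ≤ s) (hD : 0 ≤ D) (hX : 0 < X ‖ζ‖ s D) (hb : (‖ζ‖ + s) ^ 2 + D ≤ 9) :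
    ∫⁻ θ, κ √(‖ζ - s * circleMap 0 1 θ‖ ^ 2 + D) ∂ρ = ENNReal.ofReal (log 3 - log (X ‖ζ‖ s D) / 2) := by
  set x := X ‖ζ‖ s D with hx
  set a : ℂ := (s / x : ℝ) * ζ with ha
  have hq := X_eq (r := ‖ζ‖) (s := s) hD
  rw [← hx] at hq
  have key : ∀ θ, ‖ζ - s * circleMap 0 1 θ‖ ^ 2 + D = x * ‖circleMap 0 1 θ - a‖ ^ 2 := fun θ => by
    have h1 : ‖circleMap 0 1 θ‖ = 1 := by simp
    set e := circleMap 0 1 θ
    have h2 : e.re ^ 2 + e.im ^ 2 = 1 := by
      have := Complex.sq_norm e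
      rw [h1, Complex.normSq_apply] at this; nlinarith
    have h3 : ‖ζ‖ ^ 2 = ζ.re ^ 2 + ζ.im ^ 2 := by rw [Complex.sq_norm, Complex.normSq_apply]; ring
    rw [h3] at hq
    rw [Complex.sq_norm, Complex.sq_norm, Complex.normSq_apply, Complex.normSq_apply, ha]
    simp only [Complex.sub_re, Complex.sub_im, Complex.mul_re, Complex.mul_im, Complex.ofReal_re, Complex.ofReal_im]
    field_simp
    linear_combination (s ^ 2 * x - x ^ 2) * h2 - hq
  have hale : ‖a‖ ≤ 1 := by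
    have := X_ge (r := ‖ζ‖) (s := s) hD
    rw [← hx] at this
    rw [ha, norm_mul, Complex.norm_real, Real.norm_eq_abs, abs_of_nonneg (by positivity), div_mul_eq_mul_div,
      div_le_one hX]
    nlinarith [norm_nonneg ζ, sq_nonneg (s - ‖ζ‖)]
  have hne : ∀ᵐ θ, circleMap 0 1 θ ≠ a :=
    ((countable_singleton a).preimage_circleMap 0 one_ne_zero).ae_notMem volume
  have hi := circleIntegrable_log_norm_sub_const (a := a) (c := 0) 1
  have hav := circleAverage_log_norm_sub_const_eq_posLog (a := a)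
  rw [(posLog_eq_zero_iff _).2 (by rwa [abs_of_nonneg (norm_nonneg _)]), circleAverage_def, smul_eq_mul,
    mul_eq_zero, intervalIntegral.integral_of_le two_pi_pos.le] at hav
  have hav' := hav.resolve_left (by positivity)
  rw [CircleIntegrable, intervalIntegrable_iff_integrableOn_Ioc_of_le two_pi_pos.le] at hi
  have e1 : ∀ θ, circleMap 0 1 θ ≠ a → 0 < √(‖ζ - s * circleMap 0 1 θ‖ ^ 2 + D) ∧
      log (3 / √(‖ζ - s * circleMap 0 1 θ‖ ^ 2 + D)) = log 3 - log x / 2 - log ‖circleMap 0 1 θ - a‖ := fun θ h => by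
    have hp : 0 < ‖circleMap 0 1 θ - a‖ := norm_pos_iff.2 (sub_ne_zero.2 h)
    rw [key]
    refine ⟨by positivity, ?_⟩
    rw [log_div (by norm_num) (by positivity), log_sqrt (by positivity), log_mul hX.ne' (by positivity), log_pow]
    push_cast; ring
  have e2 : ∀ θ, √(‖ζ - s * circleMap 0 1 θ‖ ^ 2 + D) ≤ 3 := fun θ => by
    rw [sqrt_le_iff]
    refine ⟨by norm_num, ?_⟩
    have : ‖ζ - s * circleMap 0 1 θ‖ ≤ ‖ζ‖ + s := by
      refine (norm_sub_le _ _).trans ?_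
      simp [abs_of_nonneg hs]
    nlinarith [norm_nonneg (ζ - s * circleMap 0 1 θ)]
  have i2 : IntegrableOn (fun θ => log 3 - log x / 2 - log ‖circleMap 0 1 θ - a‖) (Ioc 0 (2 * π)) :=
    (integrableOn_const measure_Ioc_lt_top.ne).sub hi
  rw [ρ, lintegral_smul_measure, lintegral_congr_ae (g := fun θ =>
      ENNReal.ofReal (log 3 - log x / 2 - log ‖circleMap 0 1 θ - a‖)) (ae_restrict_of_ae (hne.mono fun θ h => by
    simp only [κ, if_neg (e1 θ h).1.ne', (e1 θ h).2])),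
    ← ofReal_integral_eq_lintegral_ofReal i2 (ae_restrict_of_ae (hne.mono fun θ h => by
      simp only [Pi.zero_apply]
      rw [← (e1 θ h).2]
      exact log_nonneg ((one_le_div (e1 θ h).1).2 (e2 θ)))),
    integral_sub (integrable_const _) hi, hav', setIntegral_const, smul_eq_mul, smul_eq_mul, sub_zero,
    Measure.real, volume_Ioc, sub_zero, ENNReal.toReal_ofReal two_pi_pos.le, ENNReal.ofReal_mul two_pi_pos.le,
    ← mul_assoc, ENNReal.inv_mul_cancel (by simp [pi_pos]) ENNReal.ofReal_ne_top, one_mul]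

noncomputable def g (s u : ℝ) : ℝ≥0∞ := ENNReal.ofReal ((exp (-(u * s)) - exp (-(9 * s))) / s)

lemma lam_pos {u : ℝ} (h0 : 0 < u) (h9 : u ≤ 9) :
    ∫⁻ t in Ioc u 9, ENNReal.ofReal t⁻¹ = ENNReal.ofReal (log (9 / u)) := by
  have hi : IntervalIntegrable (fun t : ℝ => t⁻¹) volume u 9 :=
    intervalIntegral.intervalIntegrable_inv (fun t ht => by
      rw [uIcc_of_le h9] at ht; exact (h0.trans_le ht.1).ne') continuousOn_id
  rw [← ofReal_integral_eq_lintegral_ofReal ((intervalIntegrable_iff_integrableOn_Ioc_of_le h9).1 hi)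
    ((ae_restrict_iff' measurableSet_Ioc).2 (ae_of_all _ fun t ht => inv_nonneg.2 (h0.trans ht.1).le)),
    ← intervalIntegral.integral_of_le h9, integral_inv_of_pos h0 (by norm_num)]

lemma lam {u : ℝ} (h0 : 0 ≤ u) (h9 : u ≤ 9) :
    ∫⁻ t in Ioc u 9, ENNReal.ofReal t⁻¹ = ∫⁻ s in Ioi 0, g s u := by
  have e1 : ∀ t ∈ Ioc u 9, ENNReal.ofReal t⁻¹ = ∫⁻ s in Ioi (0 : ℝ), ENNReal.ofReal (exp (-t * s)) := fun t ht => by
    have tp : 0 < t := h0.trans_lt ht.1
    rw [← ofReal_integral_eq_lintegral_ofReal (exp_neg_integrableOn_Ioi 0 tp) (ae_of_all _ fun s => (exp_pos _).le),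
      integral_exp_mul_Ioi (by linarith)]
    simp
  rw [setLIntegral_congr_fun measurableSet_Ioc e1, lintegral_lintegral_swap (by fun_prop)]
  refine setLIntegral_congr_fun measurableSet_Ioi fun s hs => ?_
  have sp : (0 : ℝ) < s := hs
  have hc : Continuous fun t : ℝ => exp (-t * s) := by fun_prop
  rw [← ofReal_integral_eq_lintegral_ofReal (hc.integrableOn_Ioc) (ae_of_all _ fun s => (exp_pos _).le),
    ← intervalIntegral.integral_of_le h9, g]
  congr 1
  have := intervalIntegral.integral_eq_sub_of_hasDerivAt (f := fun t => -exp (-t * s) / s) (f' := fun t => exp (-t * s))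
    (a := u) (b := 9) (fun t _ => by
      have := ((((hasDerivAt_id t).neg.mul_const s).exp).neg).div_const s
      refine this.congr_deriv ?_
      simp; field_simp) (hc.intervalIntegrable _ _)
  rw [this]; simp only [neg_mul]; ring

lemma two_κ {d : ℝ} (h0 : 0 ≤ d) (h3 : d ≤ 3) : 2 * κ d = ∫⁻ s in Ioi 0, g s (d ^ 2) := by
  rw [← lam (sq_nonneg d) (by nlinarith)]
  by_cases h : d = 0
  · subst h
    simp only [κ, if_true, ne_eq, OfNat.ofNat_ne_zero, not_false_eq_true, ENNReal.mul_top, zero_pow]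
    symm
    refine ENNReal.eq_top_of_forall_nnreal_le fun r => ?_
    have h1 : exp (-(r : ℝ)) ≤ 1 := exp_le_one_iff.2 (by simp)
    have := lam_pos (u := 9 * exp (-(r : ℝ))) (by positivity) (by linarith)
    rw [show 9 / (9 * exp (-(r : ℝ))) = exp r by rw [exp_neg]; field_simp, log_exp, ENNReal.ofReal_coe_nnreal] at this
    rw [← this]
    exact lintegral_mono_set (Ioc_subset_Ioc_left (by positivity))
  · have dp : 0 < d := lt_of_le_of_ne h0 (Ne.symm h)
    rw [lam_pos (by positivity) (by nlinarith), κ, if_neg h, show 9 / d ^ 2 = (3 / d) ^ 2 by rw [div_pow]; norm_num,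
      log_pow, ENNReal.ofReal_mul (by norm_num)]
    simp

lemma amgm (a b : ℝ≥0∞) : 2 * (a * b) ≤ a * a + b * b := by
  rcases eq_or_ne a ⊤ with rfl | ha
  · simp
  rcases eq_or_ne b ⊤ with rfl | hb
  · simp
  lift a to NNReal using ha
  lift b to NNReal using hb
  norm_cast
  rw [← NNReal.coe_le_coe]; push_cast
  nlinarith [sq_nonneg ((a : ℝ) - b)]

noncomputable def G {n : ℕ} (s : ℝ) (μ ν : Measure (V n)) : ℝ≥0∞ :=
  ∫⁻ p, ENNReal.ofReal (exp (-(dist p.1 p.2 ^ 2 * s))) ∂(μ.prod ν)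

lemma G_pd {n : ℕ} {s : ℝ} (hs : 0 < s) (μ ν : Measure (V n)) [SFinite μ] [SFinite ν] :
    2 * G s μ ν ≤ G s μ μ + G s ν ν := by
  set I := ∫⁻ z : V n, ENNReal.ofReal (exp (-(4 * s) * ‖z‖ ^ 2)) with hI
  have I0 : I ≠ 0 := by
    rw [hI, ← pos_iff_ne_zero, lintegral_pos_iff_support (by fun_prop)]
    have : Function.support (fun z : V n => ENNReal.ofReal (exp (-(4 * s) * ‖z‖ ^ 2))) = univ := by
      ext z; simp [exp_pos]
    rw [this]; exact isOpen_univ.measure_pos _ univ_nonempty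
  have I1 : I ≠ ⊤ := by
    have hint : Integrable (fun z : V n => exp (-(4 * s) * ‖z‖ ^ 2)) := by
      by_contra h
      have := GaussianFourier.integral_rexp_neg_mul_sq_norm (V := V n) (b := 4 * s) (by positivity)
      rw [integral_undef h] at this
      have h2 : 0 < (π / (4 * s)) ^ (Module.finrank ℝ (V n) / 2 : ℝ) := by positivity
      linarith
    exact hint.lintegral_lt_top.ne
  let f : Measure (V n) → V n → ℝ≥0∞ := fun μ z => ∫⁻ x, ENNReal.ofReal (exp (-(2 * s) * ‖x - z‖ ^ 2)) ∂μ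
  have fm : ∀ (μ : Measure (V n)) [SFinite μ], Measurable (f μ) := fun μ _ =>
    Measurable.lintegral_prod_left' (f := fun p : V n × V n => ENNReal.ofReal (exp (-(2 * s) * ‖p.1 - p.2‖ ^ 2)))
      (by fun_prop)
  have key : ∀ (μ ν : Measure (V n)) [SFinite μ] [SFinite ν], I * G s μ ν = ∫⁻ z, f μ z * f ν z := by
    intro μ ν _ _
    have e1 : ∀ p : V n × V n, I * ENNReal.ofReal (exp (-(dist p.1 p.2 ^ 2 * s))) =
        ∫⁻ z, ENNReal.ofReal (exp (-(2 * s) * ‖p.1 - z‖ ^ 2)) * ENNReal.ofReal (exp (-(2 * s) * ‖p.2 - z‖ ^ 2)) := by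
      rintro ⟨x, y⟩
      rw [hI, ← lintegral_mul_const _ (by fun_prop), ← lintegral_sub_right_eq_self _ ((1 / 2 : ℝ) • (x + y))]
      congr 1; ext z
      rw [← ENNReal.ofReal_mul (exp_pos _).le, ← ENNReal.ofReal_mul (exp_pos _).le, ← exp_add, ← exp_add]
      congr 2
      have := parallelogram_law_with_norm ℝ (x - z) (y - z)
      have e2 : x - z + (y - z) = (-2 : ℝ) • (z - (1 / 2 : ℝ) • (x + y)) := by module
      rw [e2, norm_smul, show x - z - (y - z) = x - y by abel] at this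
      rw [dist_eq_norm]
      simp only [norm_neg, Real.norm_ofNat] at this
      linear_combination (-s) * this
    rw [G, ← lintegral_const_mul _ (by fun_prop)]
    simp only [e1]
    rw [lintegral_lintegral_swap (by fun_prop)]
    congr 1; ext z
    exact lintegral_prod_mul (f := fun x => ENNReal.ofReal (exp (-(2 * s) * ‖x - z‖ ^ 2)))
      (g := fun x => ENNReal.ofReal (exp (-(2 * s) * ‖x - z‖ ^ 2))) (by fun_prop) (by fun_prop)
  rw [← ENNReal.mul_le_mul_iff_right I0 I1, mul_left_comm, mul_add, key, key, key,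
    ← lintegral_const_mul (f := fun z => f μ z * f ν z) _ ((fm μ).mul (fm ν)),
    ← lintegral_add_left (f := fun z => f μ z * f μ z) ((fm μ).mul (fm μ))]
  exact lintegral_mono fun z => amgm _ _

noncomputable def E {n : ℕ} (μ ν : Measure (V n)) : ℝ≥0∞ := ∫⁻ x, ∫⁻ y, κ (dist x y) ∂ν ∂μ

lemma E_pd {n : ℕ} (μ ν : Measure (V n)) [IsProbabilityMeasure μ] [IsProbabilityMeasure ν]
    (hμ : ∀ᵐ x ∂μ, ‖x‖ ≤ 1) (hν : ∀ᵐ x ∂ν, ‖x‖ ≤ 1) : 2 * E μ ν ≤ E μ μ + E ν ν := by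
  have gm : Measurable fun q : (V n × V n) × ℝ => g q.2 (dist q.1.1 q.1.2 ^ 2) := by unfold g; fun_prop
  let F : ℝ → Measure (V n) → Measure (V n) → ℝ≥0∞ := fun s μ ν => ∫⁻ p, g s (dist p.1 p.2 ^ 2) ∂(μ.prod ν)
  have hd : ∀ (μ ν : Measure (V n)) [IsProbabilityMeasure μ] [IsProbabilityMeasure ν], (∀ᵐ x ∂μ, ‖x‖ ≤ 1) →
      (∀ᵐ x ∂ν, ‖x‖ ≤ 1) → ∀ᵐ p ∂(μ.prod ν), dist p.1 p.2 ≤ 3 := fun μ ν _ _ hμ hν => by
    filter_upwards [Measure.quasiMeasurePreserving_fst.ae hμ, Measure.quasiMeasurePreserving_snd.ae hν] with p h1 h2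
    rw [dist_eq_norm]; linarith [norm_sub_le p.1 p.2]
  have k1 : ∀ (μ ν : Measure (V n)) [IsProbabilityMeasure μ] [IsProbabilityMeasure ν], (∀ᵐ x ∂μ, ‖x‖ ≤ 1) →
      (∀ᵐ x ∂ν, ‖x‖ ≤ 1) → 2 * E μ ν = ∫⁻ s in Ioi 0, F s μ ν := fun μ ν _ _ hμ hν => by
    have m : Measurable fun p : V n × V n => κ (dist p.1 p.2) := κ_meas.comp measurable_dist
    rw [E, ← lintegral_prod _ m.aemeasurable, ← lintegral_const_mul _ m,
      lintegral_congr_ae ((hd μ ν hμ hν).mono fun p hp => two_κ dist_nonneg hp),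
      lintegral_lintegral_swap gm.aemeasurable]
  have k2 : ∀ s, 0 < s → ∀ (μ ν : Measure (V n)) [IsProbabilityMeasure μ] [IsProbabilityMeasure ν], (∀ᵐ x ∂μ, ‖x‖ ≤ 1) →
      (∀ᵐ x ∂ν, ‖x‖ ≤ 1) → G s μ ν = ENNReal.ofReal s * F s μ ν + ENNReal.ofReal (exp (-(9 * s))) :=
    fun s hs μ ν _ _ hμ hν => by
    have m : Measurable fun p : V n × V n => g s (dist p.1 p.2 ^ 2) := by unfold g; fun_prop
    rw [← lintegral_const_mul _ m, ← mul_one (ENNReal.ofReal (exp (-(9 * s)))), ← measure_univ (μ := μ.prod ν),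
      ← lintegral_const, ← lintegral_add_right _ measurable_const]
    refine lintegral_congr_ae ((hd μ ν hμ hν).mono fun p hp => ?_)
    have : exp (-(9 * s)) ≤ exp (-(dist p.1 p.2 ^ 2 * s)) := by
      apply exp_le_exp.2
      have : dist p.1 p.2 ^ 2 ≤ 9 := by nlinarith [dist_nonneg (x := p.1) (y := p.2)]
      nlinarith
    simp only [g]
    rw [← ENNReal.ofReal_mul hs.le, mul_div_cancel₀ _ hs.ne', ← ENNReal.ofReal_add (by linarith) (exp_pos _).le]
    simp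
  have Fm : ∀ (μ ν : Measure (V n)) [SFinite μ] [SFinite ν], Measurable fun s => F s μ ν := fun μ ν _ _ =>
    gm.lintegral_prod_left'
  rw [← ENNReal.mul_le_mul_iff_right (a := 2) (by norm_num) (by norm_num), mul_add, k1 μ ν hμ hν, k1 μ μ hμ hμ,
    k1 ν ν hν hν, ← lintegral_const_mul _ (Fm μ ν), ← lintegral_add_left (Fm μ μ)]
  refine setLIntegral_mono' measurableSet_Ioi fun s hs => ?_
  have sp : (0 : ℝ) < s := hs
  have := G_pd sp μ ν
  rw [k2 s sp μ ν hμ hν, k2 s sp μ μ hμ hμ, k2 s sp ν ν hν hν, mul_add, add_add_add_comm, ← two_mul,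
    ENNReal.add_le_add_iff_right (ENNReal.mul_ne_top (by norm_num) ENNReal.ofReal_ne_top), ← mul_add, mul_left_comm,
    ENNReal.mul_le_mul_iff_right (by simpa using sp) ENNReal.ofReal_ne_top] at this
  exact this

end Pool.Agent.H.MP_42a974_an
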