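import Pool.Agent.H.MP_42a974_an.A

open MeasureTheory Set Real
open scoped ENNReal

namespace Pool.Agent.H.MP_42a974_an

noncomputable def pt {d : ℕ} (ζ : ℂ) (y : Fin d → ℝ) : V (d + 2) :=
  WithLp.toLp 2 (Fin.cons ζ.re (Fin.cons ζ.im y))

lemma pt_cont {d : ℕ} : Continuous fun q : ℂ × (Fin d → ℝ) => pt q.1 q.2 := by
  unfold pt
  refine (PiLp.continuous_toLp 2 _).comp (continuous_pi fun i => ?_)
  refine Fin.cases (by simp only [Fin.cons_zero]; fun_prop) (fun j => ?_) i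
  refine Fin.cases (by simp only [Fin.cons_succ, Fin.cons_zero]; fun_prop) (fun k => ?_) j
  simp only [Fin.cons_succ]; fun_prop

lemma dist_pt {d : ℕ} (ζ ξ : ℂ) (y z : Fin d → ℝ) :
    dist (pt ζ y) (pt ξ z) = √(‖ζ - ξ‖ ^ 2 + ∑ i, (y i - z i) ^ 2) := by
  rw [EuclideanSpace.dist_eq, Fin.sum_univ_succ, Fin.sum_univ_succ, Complex.sq_norm, Complex.normSq_apply]
  simp only [pt, Fin.cons_zero, Fin.cons_succ, Real.dist_eq, sq_abs, Complex.sub_re, Complex.sub_im]
  congr 1; ring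

lemma normsq_pt {d : ℕ} (ζ : ℂ) (y : Fin d → ℝ) : ‖pt ζ y‖ ^ 2 = ‖ζ‖ ^ 2 + ∑ i, y i ^ 2 := by
  rw [EuclideanSpace.real_norm_sq_eq, Fin.sum_univ_succ, Fin.sum_univ_succ, Complex.sq_norm, Complex.normSq_apply]
  simp only [pt, Fin.cons_zero, Fin.cons_succ]
  ring

lemma exists_pt {d : ℕ} (x : V (d + 2)) : ∃ ζ y, x = pt ζ y := by
  refine ⟨⟨x 0, x 1⟩, fun i => x i.succ.succ, ?_⟩
  ext i
  refine Fin.cases rfl (fun j => ?_) i
  exact Fin.cases rfl (fun k => rfl) j

noncomputable def ring {d : ℕ} (s : ℝ) (y : Fin d → ℝ) (θ : ℝ) : V (d + 2) := pt (s * circleMap 0 1 θ) y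

lemma ring_cont {d : ℕ} : Continuous fun q : (ℝ × (Fin d → ℝ)) × ℝ => ring q.1.1 q.1.2 q.2 := by
  have := continuous_circleMap 0 1
  exact pt_cont.comp (f := fun q : (ℝ × (Fin d → ℝ)) × ℝ => ((q.1.1 * circleMap 0 1 q.2 : ℂ), q.1.2)) (by fun_prop)

lemma ring_meas {d : ℕ} (s : ℝ) (y : Fin d → ℝ) : Measurable (ring s y) :=
  (ring_cont.comp (f := fun θ => ((s, y), θ)) (by fun_prop)).measurable

lemma κd_meas {n : ℕ} (x : V n) : Measurable fun y => κ (dist x y) := κ_meas.comp (by fun_prop)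

lemma config {d m : ℕ} (r : Fin (m + 1) → ℝ) (y : Fin (m + 1) → Fin d → ℝ) (w : Fin (m + 1) → ℝ)
    (p : Fin (m + 1) → Fin (m + 1) → ℝ) (hr : ∀ i, 0 ≤ r i) (h0 : r 0 = 1) (hw : ∀ i, 0 ≤ w i) (h1 : ∑ i, w i = 1)
    (hd : ∀ i j, (r i + r j) ^ 2 + ∑ k, (y i k - y j k) ^ 2 ≤ 4) (hp : ∀ i j, 0 < p i j)
    (hX : ∀ i j, p i j ≤ X (r i) (r j) (∑ k, (y i k - y j k) ^ 2)) (h9 : ∀ i j, p i j ≤ 9) :
    ∃ K : Set (V (d + 2)), IsCompact K ∧ Metric.diam K = 2 ∧ ∃ μ : Measure (V (d + 2)), IsProbabilityMeasure μ ∧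
      μ Kᶜ = 0 ∧ E μ μ ≤ ENNReal.ofReal (log 3 - (∑ i, ∑ j, w i * w j * log (p i j)) / 2) := by
  let K : Set (V (d + 2)) := ⋃ i, (fun z : ℂ => pt (r i * z) (y i)) '' Metric.sphere 0 1
  have hK : IsCompact K := isCompact_iUnion fun i => (isCompact_sphere 0 1).image
    (pt_cont.comp (f := fun z : ℂ => ((r i * z : ℂ), y i)) (by fun_prop))
  have hnorm : ∀ i (z : ℂ), z ∈ Metric.sphere (0 : ℂ) 1 → ‖(r i : ℂ) * z‖ = r i := fun i z hz => by
    rw [mem_sphere_zero_iff_norm] at hz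
    simp [hz, abs_of_nonneg (hr i)]
  have hmem : ∀ i θ, ring (r i) (y i) θ ∈ K := fun i θ => mem_iUnion.2 ⟨i, _, by simp, rfl⟩
  let μ : Measure (V (d + 2)) := ∑ i, ENNReal.ofReal (w i) • ρ.map (ring (r i) (y i))
  have hint : ∀ f : V (d + 2) → ℝ≥0∞, Measurable f →
      ∫⁻ x, f x ∂μ = ∑ i, ENNReal.ofReal (w i) * ∫⁻ θ, f (ring (r i) (y i) θ) ∂ρ := fun f hf => by
    rw [lintegral_finsetSum_measure]
    refine Finset.sum_congr rfl fun i _ => ?_
    rw [lintegral_smul_measure, smul_eq_mul, lintegral_map hf (ring_meas _ _)]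
  have hprob : IsProbabilityMeasure μ := ⟨by
    rw [← lintegral_one, hint _ measurable_const]
    simp only [lintegral_const, measure_univ, mul_one]
    rw [← ENNReal.ofReal_sum_of_nonneg fun i _ => hw i, h1, ENNReal.ofReal_one]⟩
  refine ⟨K, hK, le_antisymm (Metric.diam_le_of_forall_dist_le (by norm_num) ?_) ?_, μ, hprob, ?_, ?_⟩
  · simp only [K, mem_iUnion]
    rintro _ ⟨i, z, hz, rfl⟩ _ ⟨j, z', hz', rfl⟩
    rw [dist_pt, sqrt_le_iff]
    refine ⟨by norm_num, le_trans ?_ ((hd i j).trans (by norm_num))⟩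
    have := norm_sub_le ((r i : ℂ) * z) (r j * z')
    rw [hnorm i z hz, hnorm j z' hz'] at this
    gcongr
  · have := Metric.dist_le_diam_of_mem hK.isBounded (x := pt (r 0 * 1) (y 0)) (y := pt (r 0 * -1) (y 0))
      (mem_iUnion.2 ⟨0, 1, by simp, rfl⟩) (mem_iUnion.2 ⟨0, -1, by simp, rfl⟩)
    rw [dist_pt, h0] at this
    norm_num at this
    exact this
  · rw [← lintegral_indicator_one hK.measurableSet.compl, hint _ (measurable_one.indicator hK.measurableSet.compl)]
    refine Finset.sum_eq_zero fun i _ => ?_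
    simp [indicator_of_notMem, hmem]
  · have l3 : ∀ i j, 0 ≤ log 3 - log (p i j) / 2 := fun i j => by
      have := log_le_log (hp i j) (h9 i j)
      rw [show (9 : ℝ) = 3 ^ 2 by norm_num, log_pow] at this
      push_cast at this; linarith
    have e : ∀ i θ, ∫⁻ x, κ (dist (ring (r i) (y i) θ) x) ∂μ ≤
        ∑ j, ENNReal.ofReal (w j * (log 3 - log (p i j) / 2)) := fun i θ => by
      rw [hint _ (κd_meas _)]
      refine Finset.sum_le_sum fun j _ => ?_
      have hn := hnorm i (circleMap 0 1 θ) (by simp)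
      simp only [ring, dist_pt]
      rw [ring_int _ _ _ (hr j) (by positivity) (by rw [hn]; exact (hp i j).trans_le (hX i j))
        (by rw [hn]; exact (hd i j).trans (by norm_num)), hn, ENNReal.ofReal_mul (hw j)]
      gcongr
      · exact hp i j
      · exact hX i j
    rw [E, hint _ (Measurable.lintegral_prod_right' (f := fun q : V (d + 2) × V (d + 2) => κ (dist q.1 q.2))
      (κ_meas.comp measurable_dist))]
    calc _ ≤ ∑ i, ENNReal.ofReal (w i) * ∑ j, ENNReal.ofReal (w j * (log 3 - log (p i j) / 2)) :=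
          Finset.sum_le_sum fun i _ => by
            gcongr
            exact (lintegral_mono (e i)).trans (by simp)
      _ = ENNReal.ofReal (∑ i, ∑ j, w i * (w j * (log 3 - log (p i j) / 2))) := by
          rw [ENNReal.ofReal_sum_of_nonneg fun i _ => Finset.sum_nonneg fun j _ =>
            mul_nonneg (hw i) (mul_nonneg (hw j) (l3 i j))]
          refine Finset.sum_congr rfl fun i _ => ?_
          rw [← Finset.mul_sum, ENNReal.ofReal_mul (hw i),
            ENNReal.ofReal_sum_of_nonneg fun j _ => mul_nonneg (hw j) (l3 i j)]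
      _ = _ := by
          congr 1
          have : log 3 = ∑ i, ∑ j, w i * w j * log 3 := by
            simp only [← Finset.sum_mul, ← Finset.mul_sum, h1, one_mul, mul_one]
          rw [this, Finset.sum_div, ← Finset.sum_sub_distrib]
          refine Finset.sum_congr rfl fun i _ => ?_
          rw [Finset.sum_div, ← Finset.sum_sub_distrib, ← this]
          exact Finset.sum_congr rfl fun j _ => by ring

lemma configZ {d m : ℕ} (R : Fin (m + 1) → ℕ) (Y : Fin (m + 1) → Fin d → ℤ) (n : Fin (m + 1) → ℕ)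
    (P : Fin (m + 1) → Fin (m + 1) → ℕ) (N T : ℕ) (h0 : R 0 = 1000) (h1 : ∑ i, n i = N) (hN : 0 < N) (hT : 0 < T)
    (hd : ∀ i j, ((R i : ℤ) + R j) ^ 2 + ∑ k, (Y i k - Y j k) ^ 2 ≤ 4000000 ∧ 0 < P i j ∧ P i j ≤ 9000000 ∧
      (P i j : ℤ) ^ 2 - (R i ^ 2 + R j ^ 2 + ∑ k, (Y i k - Y j k) ^ 2) * P i j + R i ^ 2 * R j ^ 2 ≤ 0)
    (hpr : T ^ (N * N) ≤ ∏ i, ∏ j, P i j ^ (n i * n j)) :
    ∃ K : Set (V (d + 2)), IsCompact K ∧ Metric.diam K = 2 ∧ ∃ μ : Measure (V (d + 2)), IsProbabilityMeasure μ ∧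
      μ Kᶜ = 0 ∧ E μ μ ≤ ENNReal.ofReal (log 3 - log (T / 1000000) / 2) := by
  have hN' : (0 : ℝ) < N := by exact_mod_cast hN
  have hD : ∀ i j, ∑ k, ((Y i k : ℝ) / 1000 - Y j k / 1000) ^ 2 = (∑ k, ((Y i k : ℝ) - Y j k) ^ 2) / 1000000 :=
    fun i j => by rw [Finset.sum_div]; exact Finset.sum_congr rfl fun k _ => by ring
  have hP : ∀ i j, (0 : ℝ) < P i j := fun i j => by exact_mod_cast (hd i j).2.1
  have h1' : ∑ i, (n i : ℝ) = N := by exact_mod_cast h1
  obtain ⟨K, hK, hdi, μ, hμ, hn, hE⟩ := config (fun i => R i / 1000) (fun i k => Y i k / 1000) (fun i => n i / N)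
    (fun i j => P i j / 1000000) (fun i => by positivity) (by simp [h0]) (fun i => by positivity)
    (by rw [← Finset.sum_div, h1', div_self hN'.ne'])
    (fun i j => by
      have : ((R i : ℝ) + R j) ^ 2 + ∑ k, ((Y i k : ℝ) - Y j k) ^ 2 ≤ 4000000 := by exact_mod_cast (hd i j).1
      rw [hD]; linarith)
    (fun i j => by have := hP i j; positivity)
    (fun i j => le_X (by
      have : (P i j : ℝ) ^ 2 - (R i ^ 2 + R j ^ 2 + ∑ k, ((Y i k : ℝ) - Y j k) ^ 2) * P i j + R i ^ 2 * R j ^ 2 ≤ 0 := by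
        exact_mod_cast (hd i j).2.2.2
      rw [hD]; linarith))
    (fun i j => by
      have : (P i j : ℝ) ≤ 9000000 := by exact_mod_cast (hd i j).2.2.1
      linarith)
  refine ⟨K, hK, hdi, μ, hμ, hn, hE.trans (ENNReal.ofReal_le_ofReal ?_)⟩
  have hT' : (0 : ℝ) < T := by exact_mod_cast hT
  have h2 : (T : ℝ) ^ (N * N) ≤ ∏ i, ∏ j, (P i j : ℝ) ^ (n i * n j) := by exact_mod_cast hpr
  have h3 := log_le_log (by positivity) h2
  rw [log_pow, log_prod fun i _ => Finset.prod_ne_zero_iff.2 fun j _ => pow_ne_zero _ (hP i j).ne'] at h3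
  simp only [log_prod fun j _ => pow_ne_zero _ (hP _ j).ne', log_pow] at h3
  push_cast at h3
  have h4 : ∑ i, ∑ j, (n i : ℝ) / N * (n j / N) * log (P i j / 1000000) =
      (∑ i, ∑ j, (n i : ℝ) * n j * log (P i j)) / (N * N) - log 1000000 := by
    have : log 1000000 = ∑ i, ∑ j, (n i : ℝ) / N * (n j / N) * log 1000000 := by
      simp only [← Finset.sum_mul, ← Finset.mul_sum, ← Finset.sum_div, h1', div_self hN'.ne', one_mul, mul_one]
    rw [this, Finset.sum_div, ← Finset.sum_sub_distrib]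
    refine Finset.sum_congr rfl fun i _ => ?_
    rw [Finset.sum_div, ← Finset.sum_sub_distrib]
    refine Finset.sum_congr rfl fun j _ => ?_
    rw [log_div (hP i j).ne' (by norm_num)]; field_simp
  rw [h4, log_div hT'.ne' (by norm_num)]
  have : log T ≤ (∑ i, ∑ j, (n i : ℝ) * n j * log (P i j)) / (N * N) := by
    rw [le_div_iff₀ (by positivity)]; linarith
  linarith

lemma cfg3 : ∃ K : Set (V 3), IsCompact K ∧ Metric.diam K = 2 ∧ ∃ μ : Measure (V 3), IsProbabilityMeasure μ ∧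
      μ Kᶜ = 0 ∧ E μ μ ≤ ENNReal.ofReal (log 3 - log ((1471600 : ℕ) / 1000000) / 2) :=
  configZ (d := 1) ![1000, 961, 849, 676, 459, 235, 58] ![![0], ![393], ![762], ![1091], ![1367], ![1573], ![1697]]
    ![27, 5, 5, 4, 4, 3, 2]
    ![![1000000, 1433913, 1927485, 2461616, 3009361, 3513837, 3882306], ![1433913, 923521, 1246408, 1604708, 1984851, 2349438, 2626117], ![1927485, 1246408, 720801, 932960, 1167426, 1405423, 1596871], ![2461616, 1604708, 932960, 456976, 576967, 708926, 825714], ![3009361, 1984851, 1167426, 576967, 210681, 264324, 320735], ![3513837, 2349438, 1405423, 708926, 264324, 55225, 71361], ![3882306, 2626117, 1596871, 825714, 320735, 71361, 3364]]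
    50 1471600 rfl (by decide) (by decide) (by decide) (by decide +kernel) (by decide +kernel)

lemma cfg4 : ∃ K : Set (V 4), IsCompact K ∧ Metric.diam K = 2 ∧ ∃ μ : Measure (V 4), IsProbabilityMeasure μ ∧
      μ Kᶜ = 0 ∧ E μ μ ≤ ENNReal.ofReal (log 3 - log ((1765600 : ℕ) / 1000000) / 2) :=
  configZ (d := 2) ![1000, 287, 83, 359, 775, 613, 110, 866]
    ![![0, 0], ![603, -1402], ![1658, 249], ![1433, 293], ![293, -866], ![1141, 288], ![1379, -923], ![685, 198]]
    ![15, 5, 2, 3, 6, 3, 2, 4]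
    ![![1000000, 3387264, 3816048, 3228296, 2158120, 2617006, 3762454, 1853843], ![3387264, 82369, 3927939, 3770359, 1017781, 3595072, 925008, 3380777], ![3816048, 3927939, 6889, 183492, 3712849, 647469, 1470357, 1703141], ![3228296, 3770359, 183492, 128881, 3349274, 491381, 1621591, 1377182], ![2158120, 1017781, 3712849, 3349274, 600625, 2950725, 1791312, 2452688], ![2617006, 3595072, 647469, 491381, 2950725, 375769, 1908651, 1081088], ![3762454, 925008, 1470357, 1621591, 1791312, 1908651, 12100, 2496698], ![1853843, 3380777, 1703141, 1377182, 2452688, 1081088, 2496698, 749956]]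
    40 1765600 rfl (by decide) (by decide) (by decide) (by decide +kernel) (by decide +kernel)

end Pool.Agent.H.MP_42a974_an
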