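import Pool.Agent.H.MP_42a974_an.B

open MeasureTheory Set Real
open scoped ENNReal

namespace Pool.Agent.H.MP_42a974_an

lemma X_sph {r s h t : ℝ} (hr : r ^ 2 = 1 - h ^ 2) (hs : s ^ 2 = 1 - t ^ 2) :
    X r s ((h - t) ^ 2) = 1 - h * t + |h - t| := by
  have : (r ^ 2 + s ^ 2 + (h - t) ^ 2) ^ 2 - 4 * r ^ 2 * s ^ 2 = (2 * (h - t)) ^ 2 := by rw [hr, hs]; ring
  rw [X, this, sqrt_sq_eq_abs, abs_mul, abs_two, hr, hs]; ring

noncomputable def τ : Measure ℝ := (2 : ℝ≥0∞)⁻¹ • volume.restrict (Ioo (-1) 1)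
instance : IsProbabilityMeasure τ := ⟨by
  simp only [τ, Measure.smul_apply, Measure.restrict_apply_univ, volume_Ioo, smul_eq_mul]
  norm_num
  exact ENNReal.inv_mul_cancel (by norm_num) (by norm_num)⟩

lemma W {h : ℝ} (h1 : -1 ≤ h) (h2 : h ≤ 1) :
    ∫⁻ t, ENNReal.ofReal (log 3 - log (1 - h * t + |h - t|) / 2) ∂τ = ENNReal.ofReal (log 3 - log 2 + 1 / 2) := by
  have a1 : ∀ t ∈ Ioo (-1) h, log (1 - h * t + |h - t|) = log (1 + h) + log (1 - t) := fun t ht => by
    rw [abs_of_pos (sub_pos.2 ht.2), ← log_mul (by linarith [ht.1, ht.2]) (by linarith [ht.1, ht.2])]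
    congr 1; ring
  have a2 : ∀ t ∈ Ioo h 1, log (1 - h * t + |h - t|) = log (1 - h) + log (1 + t) := fun t ht => by
    rw [abs_of_neg (sub_neg.2 ht.1), ← log_mul (by linarith [ht.1, ht.2]) (by linarith [ht.1, ht.2])]
    congr 1; ring
  have j1 : IntervalIntegrable (fun t => log (1 - t)) volume (-1) h := by
    have := (intervalIntegral.intervalIntegrable_log' (a := 2) (b := 1 - h)).comp_sub_left 1
    norm_num at this; exact this
  have j2 : IntervalIntegrable (fun t => log (1 + t)) volume h 1 := by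
    have := (intervalIntegral.intervalIntegrable_log' (a := 1 + h) (b := 2)).comp_add_left 1
    norm_num at this; exact this
  have i1 : IntervalIntegrable (fun t => log (1 - h * t + |h - t|)) volume (-1) h := by
    have := (intervalIntegrable_const (c := log (1 + h))).add j1
    rw [intervalIntegrable_iff_integrableOn_Ioo_of_le h1] at this ⊢
    exact this.congr_fun (fun t ht => (a1 t ht).symm) measurableSet_Ioo
  have i2 : IntervalIntegrable (fun t => log (1 - h * t + |h - t|)) volume h 1 := by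
    have := (intervalIntegrable_const (c := log (1 - h))).add j2
    rw [intervalIntegrable_iff_integrableOn_Ioo_of_le h2] at this ⊢
    exact this.congr_fun (fun t ht => (a2 t ht).symm) measurableSet_Ioo
  have v1 : ∫ t in (-1)..h, log (1 - h * t + |h - t|) = ∫ t in (-1)..h, (log (1 + h) + log (1 - t)) := by
    rw [intervalIntegral.integral_of_le h1, intervalIntegral.integral_of_le h1, integral_Ioc_eq_integral_Ioo,
      integral_Ioc_eq_integral_Ioo]
    exact setIntegral_congr_fun measurableSet_Ioo a1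
  have v2 : ∫ t in h..1, log (1 - h * t + |h - t|) = ∫ t in h..1, (log (1 - h) + log (1 + t)) := by
    rw [intervalIntegral.integral_of_le h2, intervalIntegral.integral_of_le h2, integral_Ioc_eq_integral_Ioo,
      integral_Ioc_eq_integral_Ioo]
    exact setIntegral_congr_fun measurableSet_Ioo a2
  rw [intervalIntegral.integral_add intervalIntegrable_const j1, intervalIntegral.integral_const,
    intervalIntegral.integral_comp_sub_left log, integral_log] at v1
  rw [intervalIntegral.integral_add intervalIntegrable_const j2, intervalIntegral.integral_const,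
    intervalIntegral.integral_comp_add_left log, integral_log] at v2
  have v := intervalIntegral.integral_add_adjacent_intervals i1 i2
  have i := i1.trans i2
  rw [v1, v2, intervalIntegral.integral_of_le (by norm_num), integral_Ioc_eq_integral_Ioo] at v
  rw [intervalIntegrable_iff_integrableOn_Ioo_of_le (by norm_num)] at i
  have i' : IntegrableOn (fun t => log 3 - log (1 - h * t + |h - t|) / 2) (Ioo (-1) 1) :=
    Integrable.sub (integrable_const _) (i.div_const 2)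
  rw [τ, lintegral_smul_measure, ← ofReal_integral_eq_lintegral_ofReal i'
    ((ae_restrict_iff' measurableSet_Ioo).2 (ae_of_all _ fun t ht => ?_)),
    integral_sub (integrable_const _) (i.div_const 2), integral_div, ← v, setIntegral_const, Measure.real, volume_Ioo,
    ENNReal.toReal_ofReal (by norm_num), smul_eq_mul, ← ENNReal.ofReal_ofNat 2, ← ENNReal.ofReal_inv_of_pos two_pos,
    ← ENNReal.ofReal_mul (by norm_num)]
  · congr 1
    simp only [smul_eq_mul]
    norm_num; ring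
  · have hp : 0 < 1 - h * t + |h - t| := by
      have : h * t < 1 := by nlinarith [ht.1, ht.2, abs_le.2 ⟨h1, h2⟩, sq_nonneg (h - t)]
      linarith [abs_nonneg (h - t)]
    have h9 : 1 - h * t + |h - t| ≤ 3 ^ 2 := by
      have : |h - t| ≤ 2 := abs_le.2 ⟨by linarith [ht.2], by linarith [ht.1]⟩
      nlinarith [ht.1, ht.2]
    have := log_le_log hp h9
    rw [log_pow] at this
    simp only [Pi.zero_apply]
    push_cast at this; linarith

noncomputable def sph (q : ℝ × ℝ) : V 3 := ring (d := 1) √(1 - q.1 ^ 2) (fun _ => q.1) q.2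
lemma sph_meas : Measurable sph :=
  (ring_cont.comp (f := fun q : ℝ × ℝ => ((√(1 - q.1 ^ 2), fun _ : Fin 1 => q.1), q.2)) (by fun_prop)).measurable
noncomputable def σ : Measure (V 3) := (τ.prod ρ).map sph
instance : IsProbabilityMeasure σ := Measure.isProbabilityMeasure_map sph_meas.aemeasurable

lemma τ_ae : ∀ᵐ t ∂τ, t ∈ Ioo (-1 : ℝ) 1 := Measure.ae_smul_measure (ae_restrict_mem measurableSet_Ioo) _

lemma σ_ae : ∀ᵐ x ∂σ, ‖x‖ = 1 := by
  rw [σ, ae_map_iff sph_meas.aemeasurable (isClosed_eq continuous_norm continuous_const).measurableSet]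
  filter_upwards [Measure.quasiMeasurePreserving_fst.ae τ_ae] with q hq
  have := normsq_pt (d := 1) ((√(1 - q.1 ^ 2) : ℝ) * circleMap 0 1 q.2) (fun _ => q.1)
  have h2 : 0 ≤ 1 - q.1 ^ 2 := by nlinarith [hq.1, hq.2]
  simp only [norm_mul, Complex.norm_real, Real.norm_eq_abs, norm_circleMap_zero, abs_one, mul_one, sq_abs,
    sq_sqrt h2, Finset.univ_unique, Finset.sum_singleton, sub_add_cancel] at this
  exact (pow_eq_one_iff_of_nonneg (norm_nonneg _) two_ne_zero).1 this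

lemma pot (ζ : ℂ) (y : Fin 1 → ℝ) (hx : ‖ζ‖ ^ 2 + y 0 ^ 2 ≤ 1) : ∫⁻ z, κ (dist (pt ζ y) z) ∂σ =
    ∫⁻ t, ENNReal.ofReal (log 3 - log (X ‖ζ‖ √(1 - t ^ 2) ((y 0 - t) ^ 2)) / 2) ∂τ := by
  rw [σ, lintegral_map (κd_meas _) sph_meas, 
    lintegral_prod (fun a => κ (dist (pt ζ y) (sph a))) ((κd_meas _).comp sph_meas).aemeasurable]
  refine lintegral_congr_ae (τ_ae.mono fun t ht => ?_)
  have h2 : 0 < 1 - t ^ 2 := by nlinarith [ht.1, ht.2]
  simp only [sph, ring, dist_pt, Finset.univ_unique, Finset.sum_singleton, Fin.default_eq_zero]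
  refine ring_int _ _ _ (sqrt_nonneg _) (sq_nonneg _) (lt_of_lt_of_le ?_ (X_ge (sq_nonneg _)).2) ?_
  · rwa [sq_sqrt h2.le]
  · nlinarith [sq_sqrt h2.le, sq_nonneg (‖ζ‖ - √(1 - t ^ 2)), sq_nonneg (y 0 + t)]

lemma ball3 (μ : Measure (V 3)) [IsProbabilityMeasure μ] (hμ : ∀ᵐ x ∂μ, ‖x‖ ≤ 1) :
    ENNReal.ofReal (log 3 - log 2 + 1 / 2) ≤ E μ μ := by
  have hn : ∀ (ζ : ℂ) (y : Fin 1 → ℝ), ‖pt ζ y‖ ^ 2 = ‖ζ‖ ^ 2 + y 0 ^ 2 := fun ζ y => by simpa using normsq_pt ζ y
  have p1 : ∀ x : V 3, ‖x‖ ≤ 1 → ENNReal.ofReal (log 3 - log 2 + 1 / 2) ≤ ∫⁻ z, κ (dist x z) ∂σ := fun x hx => by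
    obtain ⟨ζ, y, rfl⟩ := exists_pt (d := 1) x
    have h1 : ‖ζ‖ ^ 2 + y 0 ^ 2 ≤ 1 := by rw [← hn]; nlinarith [norm_nonneg (pt ζ y)]
    have h2 : 0 ≤ 1 - y 0 ^ 2 := by nlinarith [sq_nonneg ‖ζ‖]
    have h3 := abs_le.1 ((sq_le_one_iff_abs_le_one _).1 (sub_nonneg.1 h2))
    rw [pot ζ y h1, ← W h3.1 h3.2]
    refine lintegral_mono_ae (τ_ae.mono fun t ht => ENNReal.ofReal_le_ofReal ?_)
    have h4 : 0 < 1 - t ^ 2 := by nlinarith [ht.1, ht.2]
    rw [← X_sph (sq_sqrt h2) (sq_sqrt h4.le)]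
    gcongr
    · exact lt_of_lt_of_le (by rwa [sq_sqrt h4.le]) (X_ge (sq_nonneg _)).2
    · exact X_mono (sq_nonneg _) (by rw [sq_sqrt h2]; linarith)
  have p2 : ∀ x : V 3, ‖x‖ = 1 → ∫⁻ z, κ (dist x z) ∂σ = ENNReal.ofReal (log 3 - log 2 + 1 / 2) := fun x hx => by
    obtain ⟨ζ, y, rfl⟩ := exists_pt (d := 1) x
    have h1 : ‖ζ‖ ^ 2 + y 0 ^ 2 = 1 := by rw [← hn, hx]; norm_num
    have h3 := abs_le.1 ((sq_le_one_iff_abs_le_one (y 0)).1 (by nlinarith [sq_nonneg ‖ζ‖]))
    rw [pot ζ y h1.le, ← W h3.1 h3.2]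
    refine lintegral_congr_ae (τ_ae.mono fun t ht => ?_)
    have h4 : 0 < 1 - t ^ 2 := by nlinarith [ht.1, ht.2]
    simp only
    rw [X_sph (eq_sub_of_add_eq h1) (sq_sqrt h4.le)]
  have e1 : E σ σ = ENNReal.ofReal (log 3 - log 2 + 1 / 2) := by
    rw [E, lintegral_congr_ae (σ_ae.mono p2)]; simp
  have e2 : ENNReal.ofReal (log 3 - log 2 + 1 / 2) ≤ E μ σ :=
    le_trans (by simp) (lintegral_mono_ae (hμ.mono p1))
  have := E_pd μ σ hμ (σ_ae.mono fun x hx => hx.le)
  rw [e1] at this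
  have h2 := (mul_le_mul_right e2 2).trans this
  rwa [two_mul, ENNReal.add_le_add_iff_right ENNReal.ofReal_ne_top] at h2

lemma low {n : ℕ} {ι : Type} [Fintype ι] (f : ι → V n → ℝ) (c : ι → ℝ) (hc : ∀ i, 0 ≤ c i) (hf : ∀ i, Continuous (f i))
    (C : ℝ) (μ : Measure (V n)) [IsProbabilityMeasure μ] (hμ : ∀ᵐ x ∂μ, ‖x‖ ≤ 1)
    (h : ∀ x y : V n, ‖x‖ ≤ 1 → ‖y‖ ≤ 1 → ENNReal.ofReal (C + ∑ i, c i * (f i x * f i y)) ≤ κ (dist x y)) :
    ENNReal.ofReal C ≤ E μ μ := by
  have hi : ∀ i, Integrable (f i) μ := fun i => by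
    obtain ⟨B, hB⟩ := (isCompact_closedBall (0 : V n) 1).exists_bound_of_continuousOn (hf i).continuousOn
    exact Integrable.of_bound (hf i).aestronglyMeasurable B (hμ.mono fun x hx => hB x (by simpa using hx))
  have hp : ∀ i, Integrable (fun p : V n × V n => c i * (f i p.1 * f i p.2)) (μ.prod μ) := fun i =>
    ((hi i).mul_prod (hi i)).const_mul _
  have hs : Integrable (fun p : V n × V n => C + ∑ i, c i * (f i p.1 * f i p.2)) (μ.prod μ) :=
    (integrable_const C).add (integrable_finsetSum _ fun i _ => hp i)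
  have hv : C ≤ ∫ p : V n × V n, (C + ∑ i, c i * (f i p.1 * f i p.2)) ∂(μ.prod μ) := by
    rw [integral_add (integrable_const C) (integrable_finsetSum _ fun i _ => hp i), integral_finsetSum _ fun i _ => hp i]
    simp only [integral_const, probReal_univ, smul_eq_mul, one_mul, le_add_iff_nonneg_right]
    refine Finset.sum_nonneg fun i _ => ?_
    rw [integral_const_mul, integral_prod_mul]
    exact mul_nonneg (hc i) (mul_self_nonneg _)
  rw [integral_eq_lintegral_pos_part_sub_lintegral_neg_part hs] at hv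
  have m : Measurable fun p : V n × V n => κ (dist p.1 p.2) := κ_meas.comp measurable_dist
  rw [E, ← lintegral_prod _ m.aemeasurable]
  refine le_trans (ENNReal.ofReal_le_of_le_toReal (hv.trans (sub_le_self _ ENNReal.toReal_nonneg))) ?_
  refine lintegral_mono_ae ?_
  filter_upwards [Measure.quasiMeasurePreserving_fst.ae hμ, Measure.quasiMeasurePreserving_snd.ae hμ] with p h1 h2
  exact h _ _ h1 h2

lemma log_cubic {u : ℝ} (hu : u < 1) : log (1 - u) ≤ -u - u ^ 2 / 2 - u ^ 3 / 3 := by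
  let f : ℝ → ℝ := fun v => -v - v ^ 2 / 2 - v ^ 3 / 3 - log (1 - v)
  have hd : ∀ v < 1, HasDerivAt f (v ^ 3 / (1 - v)) v := fun v hv => by
    have h1 := ((hasDerivAt_id v).const_sub 1).log (by simp only [id]; linarith)
    have h2 := ((((hasDerivAt_id v).neg.sub ((hasDerivAt_pow 2 v).div_const 2)).sub
      ((hasDerivAt_pow 3 v).div_const 3)).sub h1)
    refine h2.congr_deriv ?_
    have : 1 - v ≠ 0 := by linarith
    simp only [id]; field_simp; push_cast; ring
  have h0 : f 0 = 0 := by simp [f]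
  suffices f 0 ≤ f u by simp only [f] at this h0; linarith
  rcases lt_trichotomy u 0 with h | h | h
  · obtain ⟨c, hc, e⟩ := exists_hasDerivAt_eq_slope f (fun v => v ^ 3 / (1 - v)) h
      (fun v hv => (hd v (by linarith [hv.2])).continuousAt.continuousWithinAt) (fun v hv => hd v (by linarith [hv.2]))
    have : c ^ 3 / (1 - c) ≤ 0 := div_nonpos_of_nonpos_of_nonneg (by nlinarith [hc.2, sq_nonneg c]) (by linarith [hc.2])
    rw [e, div_nonpos_iff] at this
    rcases this with h | h <;> linarith [h.1, h.2]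
  · rw [h]
  · obtain ⟨c, hc, e⟩ := exists_hasDerivAt_eq_slope f (fun v => v ^ 3 / (1 - v)) h
      (fun v hv => (hd v (by linarith [hv.2])).continuousAt.continuousWithinAt) (fun v hv => hd v (by linarith [hv.2]))
    have : 0 ≤ c ^ 3 / (1 - c) := div_nonneg (pow_nonneg hc.1.le 3) (by linarith [hc.2])
    rw [e, div_nonneg_iff] at this
    rcases this with h | h <;> linarith [h.1, h.2]

lemma ball4 (μ : Measure (V 4)) [IsProbabilityMeasure μ] (hμ : ∀ᵐ x ∂μ, ‖x‖ ≤ 1) :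
    ENNReal.ofReal (log 3 - log 2 / 2 + 1 / 16) ≤ E μ μ := by
  refine low (ι := Fin 4 ⊕ (Fin 4 × Fin 4) ⊕ (Fin 4 × Fin 4 × Fin 4))
    (Sum.elim (fun i x => x i) (Sum.elim (fun q x => x q.1 * x q.2 - if q.1 = q.2 then 1 / 4 else 0)
      (fun q x => x q.1 * x q.2.1 * x q.2.2)))
    (Sum.elim (fun _ => 1 / 2) (Sum.elim (fun _ => 1 / 4) fun _ => 1 / 6)) ?_ ?_ _ μ hμ fun x y hx hy => ?_
  · rintro (i | i | i) <;> simp
  · rintro (i | i | i) <;> simp only [Sum.elim_inl, Sum.elim_inr] <;> fun_prop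
  by_cases e : dist x y = 0
  · simp [κ, e]
  have dp : 0 < dist x y := lt_of_le_of_ne dist_nonneg (Ne.symm e)
  rw [κ, if_neg e]
  refine ENNReal.ofReal_le_ofReal ?_
  have hx2 : x 0 ^ 2 + x 1 ^ 2 + x 2 ^ 2 + x 3 ^ 2 ≤ 1 := by
    have := EuclideanSpace.real_norm_sq_eq x
    rw [Fin.sum_univ_four] at this
    nlinarith [norm_nonneg x]
  have hy2 : y 0 ^ 2 + y 1 ^ 2 + y 2 ^ 2 + y 3 ^ 2 ≤ 1 := by
    have := EuclideanSpace.real_norm_sq_eq y
    rw [Fin.sum_univ_four] at this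
    nlinarith [norm_nonneg y]
  obtain ⟨t, ht⟩ : ∃ t, t = x 0 * y 0 + x 1 * y 1 + x 2 * y 2 + x 3 * y 3 := ⟨_, rfl⟩
  obtain ⟨a, ha⟩ : ∃ a, a = (2 - (x 0 ^ 2 + x 1 ^ 2 + x 2 ^ 2 + x 3 ^ 2) - (y 0 ^ 2 + y 1 ^ 2 + y 2 ^ 2 + y 3 ^ 2)) / 2 :=
    ⟨_, rfl⟩
  have a0 : 0 ≤ a := by linarith
  have hd : dist x y ^ 2 = 2 * (1 - (t + a)) := by
    rw [EuclideanSpace.dist_sq_eq, Fin.sum_univ_four, ht, ha]
    simp only [Real.dist_eq, sq_abs]; ring
  have hu : t + a < 1 := by nlinarith [sq_pos_of_pos dp]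
  have h1 := log_cubic hu
  have h2 : 2 * log (dist x y) = log 2 + log (1 - (t + a)) := by
    rw [← log_mul two_ne_zero (by linarith), ← hd, log_pow]; norm_num
  rw [log_div (by norm_num) e]
  have h3 : ∑ i : Fin 4 ⊕ (Fin 4 × Fin 4) ⊕ (Fin 4 × Fin 4 × Fin 4),
      Sum.elim (fun _ => (1 / 2 : ℝ)) (Sum.elim (fun _ => 1 / 4) fun _ => 1 / 6) i *
      (Sum.elim (fun i (x : V 4) => x i) (Sum.elim (fun q x => x q.1 * x q.2 - if q.1 = q.2 then 1 / 4 else 0)
        (fun q x => x q.1 * x q.2.1 * x q.2.2)) i x *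
      Sum.elim (fun i (x : V 4) => x i) (Sum.elim (fun q x => x q.1 * x q.2 - if q.1 = q.2 then 1 / 4 else 0)
        (fun q x => x q.1 * x q.2.1 * x q.2.2)) i y) = t / 2 + (t ^ 2 - 1 / 4 + a / 2) / 4 + t ^ 3 / 6 := by
    simp only [Fintype.sum_sum_type, Fintype.sum_prod_type, Fin.sum_univ_four, Sum.elim_inl, Sum.elim_inr]
    simp only [Fin.isValue, Fin.reduceEq, ↓reduceIte]
    rw [ht, ha]; ring
  rw [h3]
  nlinarith [mul_nonneg a0 (sq_nonneg (t + a / 2 + 1 / 2)), mul_nonneg a0 (sq_nonneg a)]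

end Pool.Agent.H.MP_42a974_an
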